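import Mathlib

set_option autoImplicit false

/-! Fields whose `p`-th powers lie in a subfield. -/

namespace Pool.Agent.E8helper26.EO

open Polynomial

/-- if all `(c + x)^p`, `c ∈ K₀`, lie in the subfield `K₀`, but `x` does not, then `K₀` is finite
(`p ≠ 0` in `K₀`) -/
theorem fin_of_pow {k : Type*} [Field k] (K₀ : Subfield k) (p : ℕ) (hp : 0 < p)
    (hpk : (p : k) ≠ 0) (x : k) (hx : x ∉ K₀) (h : ∀ c ∈ K₀, (c + x) ^ p ∈ K₀) : Finite K₀ := by
  classical
  by_contra hinf
  rw [not_finite_iff_infinite] at hinf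
  obtain ⟨s, hs⟩ := Infinite.exists_subset_card_eq K₀ (p + 1)
  let v : K₀ → k := fun c => c
  have hv : Set.InjOn v s := fun _ _ _ _ h => Subtype.ext h
  let r : K₀ → K₀ := fun c => ⟨((c : k) + x) ^ p, h c c.2⟩
  let g : K₀[X] := Lagrange.interpolate s id r
  have hg : g.degree < (s.card : WithBot ℕ) :=
    Lagrange.degree_interpolate_lt r Function.injective_id.injOn
  have hf : ((X + C x) ^ p : k[X]).degree < (s.card : WithBot ℕ) := by
    rw [degree_pow, degree_X_add_C, hs, nsmul_one]
    exact_mod_cast Nat.lt_succ_self p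
  have heq : (X + C x) ^ p = g.map K₀.subtype := by
    refine eq_of_degrees_lt_of_eval_index_eq s hv hf
      (lt_of_le_of_lt (degree_map_le) hg) (fun i hi => ?_)
    have h1 : g.eval i = r i := Lagrange.eval_interpolate_at_node (v := id) r
      Function.injective_id.injOn hi
    have h2 : (g.map K₀.subtype).eval (v i) = K₀.subtype (g.eval i) := by
      rw [eval_map]
      exact (hom_eval₂ g (RingHom.id K₀) K₀.subtype i).symm ▸ rfl
    rw [h2, h1]
    simp [v, r]
  have h1 := congrArg (fun f => coeff f (p - 1)) heq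
  simp only [coeff_X_add_C_pow, coeff_map] at h1
  have h2 : p - (p - 1) = 1 := by omega
  have h3 : p.choose (p - 1) = p := by
    rw [← Nat.choose_symm (by omega : p - 1 ≤ p), h2, Nat.choose_one_right]
  rw [h2, h3, pow_one] at h1
  apply hx
  have h4 : x = (K₀.subtype (g.coeff (p - 1))) / (p : k) := by
    rw [← h1, mul_div_cancel_right₀ _ hpk]
  rw [h4]
  exact K₀.div_mem (g.coeff (p - 1)).2 (natCast_mem K₀ p)

end Pool.Agent.E8helper26.EO
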