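import Mathlib
import Pool.Agent.R675.TP.Part
import Pool.Agent.E8helper26.EO.Fin

set_option autoImplicit false

/-! Partitions of `F*/F*^p` into blocks, `p` odd: all bad elements lie in one block, without any
finiteness assumption.  If not, there is a valuation ring `O` such that `1 + m ⊆ F*^p` and the
`p`-th powers in the residue field form a subfield, and all units outside `F*^p` are bad.  If the
residue characteristic is `p` then all units are `p`-th powers; otherwise the residue field is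
finite. -/

namespace Pool.Agent.E8helper26.EO

open Pool.Agent.Y920.EP Pool.Agent.R675.TP
open Pool.Agent.Y920.ETC (PCD Compat)

section

variable {F : Type} [Field F]

lemma mem_O_of_pow {O : ValuationSubring F} {p : ℕ} (hp : 0 < p) {y : F} (h : y ^ p ∈ O) :
    y ∈ O := by
  rw [← O.valuation_le_one_iff] at h ⊢
  rw [map_pow] at h
  by_contra hc
  rw [not_le] at hc
  exact absurd h (not_le.2 (one_lt_pow' hc hp.ne'))

/-- `ζ - 1` divides `p` -/
lemma dvd_p {R : Type*} [CommRing R] [IsDomain R] {p : ℕ} (hp : 1 < p) {ζ : R}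
    (hζ : IsPrimitiveRoot ζ p) : (ζ - 1) ∣ (p : R) := by
  have h1 := hζ.geom_sum_eq_zero hp
  have h2 : (ζ - 1) ∣ ∑ i ∈ Finset.range p, (ζ ^ i - 1) := by
    refine Finset.dvd_sum fun i _ => ?_
    have := sub_dvd_pow_sub_pow ζ 1 i
    rwa [one_pow] at this
  rw [Finset.sum_sub_distrib, h1, Finset.sum_const, Finset.card_range, nsmul_one, zero_sub,
    dvd_neg] at h2
  exact h2

end

section fld

variable {F : Type} [Field F] {A : Type} [CommGroup A] {φ : Fˣ →* A} {Nn : A → Subgroup A}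

/-- residue characteristic `p`: all units are in the kernel -/
lemma units_of_wild (h : TSys φ Nn) (hT : Two φ Nn)
    {O : ValuationSubring F} (hO : Compat (Tn h hT) (Un h hT) O) {p : ℕ} (hp : p.Prime)
    (hk : φ.ker = pwG F p) {ζ : F} (hζ : IsPrimitiveRoot ζ p)
    (hw : O.valuation (ζ - 1) < 1) {u : Fˣ} (hu : u ∈ O.unitGroup) : φ u = 1 := by
  have hζO : ζ ∈ O := mem_O_of_pow hp.pos (by rw [hζ.pow_eq_one]; exact O.one_mem)
  obtain ⟨ζ', hζ'⟩ : ∃ ζ' : O, (ζ' : F) = ζ := ⟨⟨ζ, hζO⟩, rfl⟩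
  have hζp : IsPrimitiveRoot ζ' p := by
    rw [← hζ'] at hζ
    exact IsPrimitiveRoot.coe_submonoidClass_iff.1 hζ
  obtain ⟨q, hq⟩ := dvd_p hp.one_lt hζp
  obtain ⟨π, hπ⟩ : ∃ π : O, π = ζ' - 1 := ⟨_, rfl⟩
  rw [← hπ] at hq
  have hπm : π ∈ IsLocalRing.maximalIdeal O := by
    rw [O.valuation_lt_one_iff, hπ]
    push_cast
    rw [hζ']
    exact hw
  have hπ0 : π ≠ 0 := by
    rw [hπ, sub_ne_zero]
    exact hζp.ne_one hp.one_lt
  have key : ∀ u : O, u ≠ 0 → ∃ b x : O, b ^ p = π * x ∧ x - u ∈ IsLocalRing.maximalIdeal O := by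
    intro u hu
    have hwm : π * u ∈ IsLocalRing.maximalIdeal O := Ideal.mul_mem_right _ _ hπm
    have hw0 : ((π * u : O) : F) ≠ 0 := by
      intro e
      exact mul_ne_zero hπ0 hu (Subtype.ext e)
    have hwv : O.valuation ((π * u : O) : F) < 1 := (O.valuation_lt_one_iff _).1 hwm
    obtain ⟨t, ht, e⟩ := hO.one _ (π * u : O).2 (Pool.Agent.Y232.EP.of_lt_one hw0 hwv)
    have ht1 := (mem_Tn.1 ht).1
    rw [phi_one hk] at ht1
    obtain ⟨y, hy⟩ := ht1
    have hyO : (y : F) ∈ O := by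
      refine mem_O_of_pow hp.pos ?_
      rw [← Units.val_pow_eq_pow_val, ← hy, e]
      exact O.add_mem _ _ O.one_mem (π * u : O).2
    obtain ⟨b, hb⟩ : ∃ b : O, b = ⟨y, hyO⟩ - 1 := ⟨_, rfl⟩
    have h1 : (1 + b) ^ p = 1 + π * u := by
      apply Subtype.ext
      rw [hb]
      push_cast
      rw [add_sub_cancel, ← Units.val_pow_eq_pow_val, ← hy, e]
      push_cast
      rfl
    obtain ⟨r, hr⟩ := exists_add_pow_prime_eq hp (1 : O) b
    rw [h1, one_pow, hq, mul_one] at hr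
    have h2 : b ^ p = π * (u - q * b * r) := by linear_combination -hr
    have hbm : b ∈ IsLocalRing.maximalIdeal O := by
      refine Ideal.IsPrime.mem_of_pow_mem inferInstance p ?_
      rw [h2]
      exact Ideal.mul_mem_right _ _ hπm
    refine ⟨b, u - q * b * r, h2, ?_⟩
    have e2 : u - q * b * r - u = b * (-(q * r)) := by ring
    rw [e2]
    exact Ideal.mul_mem_right _ _ hbm
  have hnz : ∀ x v : O, v ∉ IsLocalRing.maximalIdeal O → x - v ∈ IsLocalRing.maximalIdeal O →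
      x ∉ IsLocalRing.maximalIdeal O := by
    intro x v hv hxv hx
    apply hv
    have := Ideal.sub_mem _ hx hxv
    rwa [sub_sub_cancel] at this
  have hv1 : (1 : O) ∉ IsLocalRing.maximalIdeal O := by
    rw [IsLocalRing.mem_maximalIdeal, mem_nonunits_iff, not_not]
    exact isUnit_one
  have h0m : (0 : O) ∈ IsLocalRing.maximalIdeal O := Ideal.zero_mem _
  obtain ⟨b₁, x₁, hb₁, hx₁⟩ := key 1 one_ne_zero
  have hx₁m := hnz _ _ hv1 hx₁
  have hx₁0 : x₁ ≠ 0 := fun e => hx₁m (e ▸ h0m)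
  -- the element `u`
  have huv : O.valuation (u : F) = 1 := hu
  obtain ⟨u', hu'⟩ : ∃ u' : O, (u' : F) = u :=
    ⟨⟨u, (O.valuation_le_one_iff _).1 huv.le⟩, rfl⟩
  have hum : u' ∉ IsLocalRing.maximalIdeal O := by
    rw [O.valuation_lt_one_iff, hu', huv]
    exact lt_irrefl _
  have hu0 : u' ≠ 0 := fun e => hum (e ▸ h0m)
  obtain ⟨b, x, hb, hx⟩ := key u' hu0
  have hxm := hnz _ _ hum hx
  have hx0 : x ≠ 0 := fun e => hxm (e ▸ h0m)
  have hb₁0 : b₁ ≠ 0 := by
    rintro rfl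
    rw [zero_pow hp.ne_zero] at hb₁
    exact mul_ne_zero hπ0 hx₁0 hb₁.symm
  have hb0 : b ≠ 0 := by
    rintro rfl
    rw [zero_pow hp.ne_zero] at hb
    exact mul_ne_zero hπ0 hx0 hb.symm
  have c0 : ∀ a : O, a ≠ 0 → (a : F) ≠ 0 := fun a ha e => ha (Subtype.ext e)
  -- units of `F`
  obtain ⟨B, hB⟩ : ∃ B : Fˣ, (B : F) = b := ⟨Units.mk0 _ (c0 _ hb0), rfl⟩
  obtain ⟨B₁, hB₁⟩ : ∃ B : Fˣ, (B : F) = b₁ := ⟨Units.mk0 _ (c0 _ hb₁0), rfl⟩
  obtain ⟨X, hX⟩ : ∃ B : Fˣ, (B : F) = x := ⟨Units.mk0 _ (c0 _ hx0), rfl⟩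
  obtain ⟨X₁, hX₁⟩ : ∃ B : Fˣ, (B : F) = x₁ := ⟨Units.mk0 _ (c0 _ hx₁0), rfl⟩
  have hXe : X * B₁ ^ p = X₁ * B ^ p := by
    apply Units.ext
    push_cast
    rw [hX, hB₁, hX₁, hB]
    have e1 : x * b₁ ^ p = x₁ * b ^ p := by rw [hb, hb₁]; ring
    exact_mod_cast congrArg (fun a : O => (a : F)) e1
  have hpow : ∀ z : Fˣ, φ (z ^ p) = 1 := fun z => (phi_one hk).2 ⟨z, rfl⟩
  have h1 : φ X₁ = 1 := by
    refine phi_of_principal hO ?_
    rw [hX₁]
    have := (O.valuation_lt_one_iff _).1 hx₁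
    push_cast at this
    exact this
  have h2 : φ X = 1 := by
    have := congrArg φ hXe
    rwa [map_mul, map_mul, hpow, hpow, mul_one, mul_one, h1] at this
  have h3 : φ (X / u) = 1 := by
    refine phi_of_principal hO ?_
    have e1 : ((X / u : Fˣ) : F) - 1 = (x - u' : O) / u := by
      have : (u : F) ≠ 0 := u.ne_zero
      rw [Units.val_div_eq_div_val, hX]
      push_cast
      rw [hu']
      field_simp
    rw [e1, map_div₀, huv, div_one]
    exact (O.valuation_lt_one_iff _).1 hx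
  rw [map_div, h2, one_div, inv_eq_one] at h3
  exact h3

/-- the `p`-th powers of the residue field -/
lemma exists_subfield (h : TSys φ Nn) (hT : Two φ Nn) {y₀ : Fˣ} (hy₀ : Bd φ y₀)
    {O : ValuationSubring F} (hO : Compat (Tn h hT) (Un h hT) O) {p : ℕ} (hp : p.Prime)
    (hp2 : p ≠ 2) (hk : φ.ker = pwG F p) :
    ∃ K₀ : Subfield (IsLocalRing.ResidueField O), ∀ x, x ∈ K₀ ↔ ∃ z, z ^ p = x := by
  have hU := unit_iff h hT hy₀ hO
  have hodd : Odd p := hp.odd_of_ne_two hp2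
  have hpow : ∀ z : Fˣ, φ (z ^ p) = 1 := fun z => (phi_one hk).2 ⟨z, rfl⟩
  have key : ∀ z : IsLocalRing.ResidueField O, ∃ w, w ^ p = 1 + z ^ p := by
    intro z
    obtain ⟨a, rfl⟩ := IsLocalRing.residue_surjective z
    by_cases ha : a ∈ IsLocalRing.maximalIdeal O
    · refine ⟨1, ?_⟩
      rw [(IsLocalRing.residue_eq_zero_iff a).2 ha, zero_pow hp.ne_zero, one_pow, add_zero]
    by_cases hs : 1 + a ^ p ∈ IsLocalRing.maximalIdeal O
    · refine ⟨0, ?_⟩
      rw [zero_pow hp.ne_zero, ← map_pow, ← map_one (IsLocalRing.residue O), ← map_add,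
        (IsLocalRing.residue_eq_zero_iff _).2 hs]
    have hunit : ∀ a : O, a ∉ IsLocalRing.maximalIdeal O → ∃ u : Fˣ, (u : F) = a ∧
        u ∈ O.unitGroup := by
      intro a ha
      rw [O.valuation_lt_one_iff, not_lt] at ha
      have h1 : O.valuation (a : F) = 1 := le_antisymm (O.valuation_le_one a) ha
      have h0 : (a : F) ≠ 0 := by
        intro e
        rw [e, map_zero] at h1
        exact zero_ne_one h1
      exact ⟨Units.mk0 _ h0, rfl, h1⟩
    obtain ⟨t, ht, htU⟩ := hunit a ha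
    obtain ⟨s, hs', hsU⟩ := hunit _ hs
    have h1 : φ s = 1 := one_add_ker h hT (t := t ^ p) (hpow t) (by
      rw [hs', Units.val_pow_eq_pow_val, ht]; push_cast; rfl) ((hU _).1 hsU)
    rw [phi_one hk] at h1
    obtain ⟨y, hy⟩ := h1
    have hyO : (y : F) ∈ O := by
      refine mem_O_of_pow hp.pos ?_
      rw [← Units.val_pow_eq_pow_val, ← hy, hs']
      exact (1 + a ^ p : O).2
    refine ⟨IsLocalRing.residue O ⟨y, hyO⟩, ?_⟩
    rw [← map_pow, ← map_pow, ← map_one (IsLocalRing.residue O), ← map_add]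
    congr 1
    apply Subtype.ext
    rw [← hs', hy]
    push_cast
    rfl
  refine ⟨{ carrier := {x | ∃ z, z ^ p = x}
            mul_mem' := ?_
            one_mem' := ⟨1, one_pow p⟩
            add_mem' := ?_
            zero_mem' := ⟨0, zero_pow hp.ne_zero⟩
            neg_mem' := ?_
            inv_mem' := ?_ }, fun x => Iff.rfl⟩
  · rintro _ _ ⟨x, rfl⟩ ⟨y, rfl⟩
    exact ⟨x * y, mul_pow x y p⟩
  · rintro _ _ ⟨x, rfl⟩ ⟨y, rfl⟩
    by_cases hx : x = 0
    · exact ⟨y, by rw [hx, zero_pow hp.ne_zero, zero_add]⟩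
    obtain ⟨w, hw⟩ := key (y / x)
    refine ⟨x * w, ?_⟩
    rw [mul_pow, hw, div_pow]
    have : x ^ p ≠ 0 := pow_ne_zero _ hx
    field_simp
  · rintro _ ⟨x, rfl⟩
    exact ⟨-x, hodd.neg_pow x⟩
  · rintro _ ⟨x, rfl⟩
    exact ⟨x⁻¹, inv_pow x p⟩

/-- all bad elements lie in one block -/
theorem no_two' (h : TSys φ Nn) {y₀ z₀ : Fˣ} (hy₀ : Bd φ y₀) (hz₀ : Bd φ z₀)
    (hyz : φ z₀ ∉ Nn (φ y₀)) {p : ℕ} (hp : p.Prime) (hp2 : p ≠ 2) (hk : φ.ker = pwG F p)
    (hζ : ∃ ζ : F, IsPrimitiveRoot ζ p) (hodd : ∀ a : A, a * a = 1 → a = 1) : False := by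
  have hT : Two φ Nn := h.two_of hy₀ hz₀ hyz
  obtain ⟨O, hO⟩ := exists_O h hT hy₀ hodd
  have hU := unit_iff h hT hy₀ hO
  obtain ⟨ζ, hζ⟩ := hζ
  have hpow0 : ∀ z : Fˣ, φ (z ^ p) = 1 := fun z => (phi_one hk).2 ⟨z, rfl⟩
  have hwild : ¬ O.valuation (ζ - 1) < 1 := fun hw =>
    hy₀.1 (units_of_wild h hT hO hp hk hζ hw ((hU y₀).2 (mem_Un_of_bd h hT hy₀)))
  have hζO : ζ ∈ O := mem_O_of_pow hp.pos (by rw [hζ.pow_eq_one]; exact O.one_mem)
  -- `p ≠ 0` in the residue field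
  have hpk : (p : IsLocalRing.ResidueField O) ≠ 0 := by
    intro h0
    apply hwild
    obtain ⟨z, hz⟩ : ∃ z : O, z = ⟨ζ, hζO⟩ := ⟨_, rfl⟩
    obtain ⟨r, hr⟩ := exists_add_pow_prime_eq hp (1 : IsLocalRing.ResidueField O)
      (IsLocalRing.residue O z - 1)
    rw [add_sub_cancel, h0, zero_mul, zero_mul, zero_mul, add_zero, one_pow, ← map_pow] at hr
    have hz1 : z ^ p = 1 := by
      apply Subtype.ext
      rw [hz]
      push_cast
      exact hζ.pow_eq_one
    rw [hz1, map_one] at hr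
    have h1 : (IsLocalRing.residue O z - 1) ^ p = 0 := by linear_combination -hr
    have h2 := pow_eq_zero_iff hp.ne_zero |>.1 h1
    rw [← map_one (IsLocalRing.residue O), ← map_sub, IsLocalRing.residue_eq_zero_iff,
      O.valuation_lt_one_iff] at h2
    rw [hz] at h2
    push_cast at h2
    exact h2
  obtain ⟨K₀, hK₀⟩ := exists_subfield h hT hy₀ hO hp hp2 hk
  let ρ := O.unitGroupToResidueFieldUnits
  have hker : ∀ g : O.unitGroup, ρ g = 1 → φ g = 1 := by
    intro g hg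
    have h1 : g ∈ ρ.ker := hg
    rw [show ρ.ker = _ from O.ker_unitGroupToResidueFieldUnits, Subgroup.mem_comap,
      Subgroup.coe_subtype, ValuationSubring.mem_principalUnitGroup_iff] at h1
    exact phi_of_principal hO h1
  have hsur : Function.Surjective ρ := O.surjective_unitGroupToResidueFieldUnits
  -- the subfield is finite
  have hy₀U : y₀ ∈ O.unitGroup := (hU y₀).2 (mem_Un_of_bd h hT hy₀)
  have hnot : ((ρ ⟨y₀, hy₀U⟩ : (IsLocalRing.ResidueField O)ˣ) : IsLocalRing.ResidueField O) ∉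
      K₀ := by
    rw [hK₀]
    rintro ⟨z, hz⟩
    have hz0 : z ≠ 0 := by
      rintro rfl
      rw [zero_pow hp.ne_zero] at hz
      exact Units.ne_zero _ hz.symm
    obtain ⟨w, hw⟩ := hsur (Units.mk0 z hz0)
    have h1 : ρ (⟨y₀, hy₀U⟩ / w ^ p) = 1 := by
      rw [map_div, map_pow, hw, div_eq_one]
      apply Units.ext
      rw [Units.val_pow_eq_pow_val, Units.val_mk0]
      exact hz.symm
    have h2 := hker _ h1
    rw [Subgroup.coe_div, Subgroup.coe_pow, map_div, hpow0, div_one] at h2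
    exact hy₀.1 h2
  have hKfin : Finite K₀ := fin_of_pow K₀ p hp.pos hpk _ hnot (fun c _ => (hK₀ _).2 ⟨_, rfl⟩)
  have : Fintype K₀ := Fintype.ofFinite _
  obtain ⟨m, hm⟩ : ∃ m, m = Fintype.card K₀ - 1 := ⟨_, rfl⟩
  have hm0 : 0 < m := by
    have : 1 < Fintype.card K₀ := Fintype.one_lt_card
    omega
  have hpow : ∀ r : (IsLocalRing.ResidueField O)ˣ, r ^ (p * m) = 1 := by
    intro r
    have h1 : (r : IsLocalRing.ResidueField O) ^ p ∈ K₀ := (hK₀ _).2 ⟨_, rfl⟩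
    have h2 : (⟨(r : IsLocalRing.ResidueField O) ^ p, h1⟩ : K₀) ^ m = 1 := by
      rw [hm]
      refine FiniteField.pow_card_sub_one_eq_one _ ?_
      intro e
      have := congrArg Subtype.val e
      exact pow_ne_zero p r.ne_zero this
    have h3 := congrArg Subtype.val h2
    apply Units.ext
    rw [pow_mul]
    push_cast
    simpa using h3
  obtain ⟨n, hn⟩ : ∃ n, n = p * m := ⟨_, rfl⟩
  rw [← hn] at hpow
  have hpp := hp.pos
  have : NeZero n := ⟨by rw [hn]; positivity⟩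
  obtain ⟨g, hg⟩ := IsCyclic.exists_generator (α := rootsOfUnity n (IsLocalRing.ResidueField O))
  obtain ⟨w, hw⟩ := hsur (g : (IsLocalRing.ResidueField O)ˣ)
  have hcyc : ∀ u : Fˣ, Bd φ u → ∃ a : ℤ, φ u = φ (w : Fˣ) ^ a := by
    intro u hu
    have huG : u ∈ O.unitGroup := (hU u).2 (mem_Un_of_bd h hT hu)
    obtain ⟨a, ha⟩ := Subgroup.mem_zpowers_iff.1
      (hg ⟨ρ ⟨u, huG⟩, (mem_rootsOfUnity _ _).2 (hpow _)⟩)
    have h1 : (g : (IsLocalRing.ResidueField O)ˣ) ^ a = ρ ⟨u, huG⟩ := by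
      have := congrArg Subtype.val ha
      rwa [Subgroup.coe_zpow] at this
    have h2 : ρ (⟨u, huG⟩ / w ^ a) = 1 := by
      rw [map_div, map_zpow, hw, h1, div_self']
    have h3 := hker _ h2
    rw [Subgroup.coe_div, Subgroup.coe_zpow, map_div, map_zpow, div_eq_one] at h3
    exact ⟨a, h3⟩
  obtain ⟨a, ha⟩ := hcyc y₀ hy₀
  obtain ⟨b, hb⟩ := hcyc z₀ hz₀
  have hw1 : φ (w : Fˣ) ≠ 1 := by
    intro e
    rw [e, one_zpow] at ha
    exact hy₀.1 ha
  have h1 : φ y₀ ∈ Nn (φ (w : Fˣ)) := by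
    rw [ha]; exact zpow_mem (h.blk.self _) a
  have h2 : φ z₀ ∈ Nn (φ (w : Fˣ)) := by
    rw [hb]; exact zpow_mem (h.blk.self _) b
  rw [← h.blk.eq_of hw1 hy₀.1 h1] at h2
  exact hyz h2

end fld

end Pool.Agent.E8helper26.EO
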