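import Mathlib
import Pool.Agent.E8helper26.EO.Two

set_option autoImplicit false

/-! Valuation rings from partitions of `F*/T`, `F*^p ⊆ T`, and the classification of the fields with
transitive symbols, without finiteness assumptions. -/

namespace Pool.Agent.E8helper26.EO

open Pool.Agent.Y920.EP Pool.Agent.R675.TP
open Pool.Agent.Y920.ETC (PCD Compat)

lemma hodd_of {A : Type} [CommGroup A] {p : ℕ} (hp : p.Prime) (hp2 : p ≠ 2)
    (hexp : ∀ a : A, a ^ p = 1) (a : A) (ha : a * a = 1) : a = 1 := by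
  have hodd : Odd p := hp.odd_of_ne_two hp2
  obtain ⟨m, hm⟩ := hodd
  have h1 := hexp a
  rw [hm, pow_succ, pow_mul, pow_two, ha, one_pow, one_mul] at h1
  exact h1

/-- the valuation ring of a system of blocks -/
theorem val_of_tsys' (p : ℕ) (hp : p.Prime) (hp2 : p ≠ 2) (F : Type) [Field F]
    {A : Type} [CommGroup A] {φ : Fˣ →* A} (hexp : ∀ a : A, a ^ p = 1)
    {Nn : A → Subgroup A} (hT : TSys φ Nn)
    (hno : ∀ y z : Fˣ, Bd φ y → Bd φ z → φ z ∈ Nn (φ y)) (hne : ∃ a : Fˣ, φ a ≠ 1) :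
    ∃ (b : Fˣ) (O : ValuationSubring F), φ b ≠ 1 ∧
      Compat φ.ker ((Nn (φ b)).comap φ) O ∧ φ.ker ≤ (Nn (φ b)).comap φ := by
  have hodd : Odd p := hp.odd_of_ne_two hp2
  -- the block
  obtain ⟨b, hb1, hbad⟩ : ∃ b : Fˣ, φ b ≠ 1 ∧ ∀ y : Fˣ, Bd φ y → φ y ∈ Nn (φ b) := by
    by_cases h1 : ∃ y, Bd φ y
    · obtain ⟨y, hy⟩ := h1
      exact ⟨y, hy.1, fun z hz => hno y z hy hz⟩
    · obtain ⟨a, ha⟩ := hne
      exact ⟨a, ha, fun y hy => absurd ⟨y, hy⟩ h1⟩
  obtain ⟨K, hKdef⟩ : ∃ K : Subgroup A, K = Nn (φ b) := ⟨_, rfl⟩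
  have hNR : NR φ ⊆ (K : Set A) := by
    rintro a ⟨ha1, r, s, hr, hrs, hs1, hs2⟩
    have h1 : φ (-r) = a := by rw [phi_neg hT.neg, hr]
    have h2 : Bd φ (-r) := by
      rw [Bd.iff (s := s) (by rw [Units.val_neg]; linear_combination hrs), h1]
      exact ⟨ha1, hs1, hs2⟩
    have h3 := hbad _ h2
    rw [h1, ← hKdef] at h3
    exact h3
  have hRP : RP φ.ker (K.comap φ) := rp_of hT.neg K hNR
  have hsq : ∀ x : Fˣ, x * x ∈ K.comap φ → x ∈ K.comap φ := by
    intro x hx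
    rw [Subgroup.mem_comap] at hx ⊢
    obtain ⟨m, hm⟩ := hodd
    have : φ x = φ (x * x) ^ (m + 1) := by
      rw [map_mul, ← pow_two, ← pow_mul, show 2 * (m + 1) = p + 1 by omega, pow_succ, hexp,
        one_mul]
    rw [this]
    exact pow_mem hx _
  have hP := Pool.Agent.Y98.EP.t_PCD F φ.ker (K.comap φ) hRP hsq
  obtain ⟨O, hO⟩ := Pool.Agent.Y447.EP.t_WB' F φ.ker (K.comap φ) hRP hP
  exact ⟨b, O, hb1, hKdef ▸ hO, hKdef ▸ hRP.le⟩

lemma unit_le {F : Type} [Field F] {T H : Subgroup Fˣ} {O : ValuationSubring F}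
    (hO : Compat T H O) : O.unitGroup ≤ H := by
  intro u hu
  refine hO.units u ?_ ?_
  · rw [← ValuationSubring.valuation_le_one_iff]
    exact le_of_eq hu
  · rw [← ValuationSubring.valuation_le_one_iff]
    exact le_of_eq (inv_mem hu : u⁻¹ ∈ O.unitGroup)

/-- from partitions of `F*/T` to valuation rings -/
theorem compat_of_part (p : ℕ) (hp : p.Prime) (hp2 : p ≠ 2) (F : Type) [Field F]
    (hζ : ∃ ζ : F, IsPrimitiveRoot ζ p) (T : Subgroup Fˣ) (hpT : pwG F p ≤ T)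
    {P : Set (Subgroup Fˣ)} (hP : IsPart T P)
    (hfin : T = pwG F p ∨ ∀ K ∈ P, T.relIndex K ≠ 0)
    (hsum : ∀ x v : Fˣ, x ∉ T → (v : F) = 1 + x → ∀ K ∈ P, x ∈ K → v ∈ K) :
    ∃ K ∈ P, ∃ O : ValuationSubring F, Compat T K O := by
  obtain ⟨A, _, φ, hφ, hk⟩ := exists_quot F T
  subst hk
  have hexp : ∀ a : A, a ^ p = 1 := by
    intro a
    obtain ⟨u, rfl⟩ := hφ a
    rw [← map_pow]
    exact hpT ⟨u, rfl⟩
  have hneg : φ (-1) = 1 := by
    have hodd : Odd p := hp.odd_of_ne_two hp2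
    exact hpT ⟨-1, hodd.neg_one_pow⟩
  have hT := tsys_of_part hφ hP hneg (fun x v hx hv K hK hxK => hsum x v hx hv K hK hxK)
  have hne : ∃ a : Fˣ, φ a ≠ 1 := by
    by_contra hc
    push Not at hc
    obtain ⟨K, hK, -⟩ := hP.cover 1
    apply hP.ne_top K hK
    rw [eq_top_iff]
    intro x _
    exact hP.le K hK (MonoidHom.mem_ker.2 (hc x))
  have hN : ∀ (u : Fˣ) (K : Subgroup Fˣ), φ u ≠ 1 → K ∈ P → u ∈ K →
      NnP hφ hP (φ u) = K.map φ := by
    intro u K hu hK huK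
    ext b
    obtain ⟨v, rfl⟩ := hφ b
    rw [mem_NnP hφ hP hu, Subgroup.mem_map]
    constructor
    · rintro ⟨K', hK', h2, h3⟩
      have e := hP.eq_of hK hK' (x := u) (by rw [MonoidHom.mem_ker]; exact hu) huK h2
      exact ⟨v, by rw [e]; exact h3, rfl⟩
    · rintro ⟨w, hw, hwv⟩
      refine ⟨K, hK, huK, ?_⟩
      have h1 : v / w ∈ K := hP.le K hK (by
        rw [MonoidHom.mem_ker, map_div, hwv, div_self'])
      have h2 := mul_mem h1 hw
      rwa [div_mul_cancel] at h2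
  have hno : ∀ y z : Fˣ, Bd φ y → Bd φ z → φ z ∈ NnP hφ hP (φ y) := by
    intro y z hy hz
    by_contra hc
    rcases hfin with h1 | h1
    · exact no_two' hT hy hz hc hp hp2 h1 hζ (hodd_of hp hp2 hexp)
    · refine no_two hT hy hz hc hp.pos hexp (hodd_of hp hp2 hexp) ?_
      obtain ⟨K, hK, hyK⟩ := hP.cover y
      rw [hN y K hy.1 hK hyK]
      have h2 := h1 K hK
      rw [Subgroup.relIndex_ker] at h2
      have hf : Finite (K.map φ) := Nat.finite_of_card_ne_zero h2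
      exact Set.toFinite _
  obtain ⟨b, O, hb, hO, -⟩ := val_of_tsys' p hp hp2 F hexp hT hno hne
  obtain ⟨K, hK, hbK⟩ := hP.cover b
  refine ⟨K, hK, O, ?_⟩
  have e : (NnP hφ hP (φ b)).comap φ = K := by
    rw [hN b K hb hK hbK]
    ext x
    rw [Subgroup.mem_comap, Subgroup.mem_map]
    constructor
    · rintro ⟨w, hw, hwx⟩
      have h1 : x / w ∈ K := hP.le K hK (by
        rw [MonoidHom.mem_ker, map_div, hwx, div_self'])
      have h2 := mul_mem h1 hw
      rwa [div_mul_cancel] at h2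
    · exact fun hx => ⟨x, hx, rfl⟩
  rwa [e] at hO

/-- from partitions of `F*/F*^p` to valuation rings with residue characteristic different from
`p` -/
theorem val_of_part' (p : ℕ) (hp : p.Prime) (hp2 : p ≠ 2) (F : Type) [Field F]
    (hpF : (p : F) ≠ 0) (hζ : ∃ ζ : F, IsPrimitiveRoot ζ p)
    {P : Set (Subgroup Fˣ)} (hP : IsPart (pwG F p) P)
    (hsum : ∀ x v : Fˣ, x ∉ pwG F p → (v : F) = 1 + x → ∀ K ∈ P, x ∈ K → v ∈ K) :
    ∃ K ∈ P, ∃ O : ValuationSubring F, O.unitGroup ≤ K ∧ Pw p O := by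
  obtain ⟨K, hK, O, hO⟩ := compat_of_part p hp hp2 F hζ _ le_rfl hP (Or.inl rfl) hsum
  have hmem : ∀ x : Fˣ, x ∈ pwG F p ↔ ∃ y : Fˣ, x = y ^ p := fun x => mem_pwG
  obtain ⟨O', -, hpO, hO'⟩ := Pool.Agent.Y232.EP.t_COARSE' F p hp hpF (pwG F p) K hmem
    (hP.le K hK) O hO
  refine ⟨K, hK, O', unit_le hO', hpO, hpF, ?_⟩
  intro x hx hx'
  obtain ⟨t, ht, e⟩ := hO'.one x hx hx'
  obtain ⟨b, rfl⟩ := (hmem t).1 ht
  exact ⟨b, by rw [← e, Units.val_pow_eq_pow_val]⟩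

/-- the classification of the fields with transitive symbols -/
theorem classify' (p : ℕ) (hp : p.Prime) (hp2 : p ≠ 2) (F : Type) [Field F]
    (hpF : (p : F) ≠ 0) (hζ : ∃ ζ : F, IsPrimitiveRoot ζ p)
    (htr : ∀ a b c : Fˣ, a ∉ pwG F p → b ∉ pwG F p → b ∈ nmG p a → c ∈ nmG p b →
      c ∈ nmG p a)
    (hne : ∃ a : Fˣ, a ∉ pwG F p ∧ nmG p a ≠ ⊤) :
    ∃ O : ValuationSubring F, Pw p O ∧ O.unitGroup ⊔ pwG F p ≠ ⊤ ∧
      (∀ u : Fˣ, u ∉ pwG F p → u ∈ O.unitGroup ⊔ pwG F p →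
        nmG p u = O.unitGroup ⊔ pwG F p) ∧
      ∀ a : Fˣ, a ∉ O.unitGroup ⊔ pwG F p → nmG p a = Subgroup.zpowers a ⊔ pwG F p := by
  have hng := Pool.Agent.Y349.EP.t_NG
  have hsy := Pool.Agent.Y349.EP.t_SYMM
  have hpow : ∀ a : Fˣ, pwG F p ≤ nmG p a := by
    rintro a _ ⟨c, rfl⟩
    exact (hng p hp hp2 F).1 a c
  have hself : ∀ a : Fˣ, a ∉ pwG F p → a ∈ nmG p a := by
    intro a ha
    obtain ⟨A, _, φ, hφ, hk⟩ := exists_quot F (pwG F p)
    have h1 := nn_self hφ hk hng hsy hp hp2 hζ (φ a)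
    exact (mem_Nn hφ hk hng hp hp2 (fun e => ha (by rw [← hk, MonoidHom.mem_ker]; exact e))).1 h1
  have hsymm : ∀ a b : Fˣ, a ∉ pwG F p → b ∉ pwG F p → b ∈ nmG p a → a ∈ nmG p b := by
    obtain ⟨ζ, hζ'⟩ := id hζ
    exact fun a b ha hb h => hsy p hp hp2 F ζ hζ' a b ha hb h
  -- equal norm groups
  have heq : ∀ a b : Fˣ, a ∉ pwG F p → b ∉ pwG F p → b ∈ nmG p a → nmG p b = nmG p a := by
    intro a b ha hb hab
    exact le_antisymm (fun c hc => htr a b c ha hb hab hc)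
      (fun c hc => htr b a c hb ha (hsymm a b ha hb hab) hc)
  obtain ⟨a₀, ha₀, ha₀'⟩ := hne
  have hntop : ∀ a : Fˣ, a ∉ pwG F p → nmG p a ≠ ⊤ := by
    intro a ha e
    apply ha₀'
    rw [heq a a₀ ha ha₀ (by rw [e]; trivial), e]
  have hP : IsPart (pwG F p) {K | ∃ a : Fˣ, a ∉ pwG F p ∧ K = nmG p a} := by
    refine ⟨?_, ?_, ?_, ?_⟩
    · rintro _ ⟨a, -, rfl⟩
      exact hpow a
    · rintro _ ⟨a, ha, rfl⟩
      exact hntop a ha
    · intro x
      by_cases hx : x ∈ pwG F p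
      · exact ⟨_, ⟨a₀, ha₀, rfl⟩, hpow a₀ hx⟩
      · exact ⟨_, ⟨x, hx, rfl⟩, hself x hx⟩
    · rintro _ ⟨a, ha, rfl⟩ _ ⟨b, hb, rfl⟩ hne'
      refine le_antisymm ?_ (le_inf (hpow a) (hpow b))
      rintro x ⟨hxa, hxb⟩
      by_contra hx
      exact hne' ((heq a x ha hx hxa).symm.trans (heq b x hb hx hxb))
  obtain ⟨K, ⟨b, hb, rfl⟩, O, hOb, hPw⟩ := val_of_part' p hp hp2 F hpF hζ hP (by
    rintro x v hx hv _ ⟨a, ha, rfl⟩ hxa
    rw [← heq a x ha hx hxa]
    exact (hng p hp hp2 F).2.1 x v hv)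
  obtain ⟨h1, h2⟩ := norms_of_val hng hsy p hp hp2 F hζ O hPw
  have hUb : O.unitGroup ⊔ pwG F p ≤ nmG p b := sup_le hOb (hpow b)
  refine ⟨O, hPw, ?_, ?_, h1⟩
  · intro e
    rw [e] at hUb
    exact hntop b hb (eq_top_iff.2 hUb)
  · intro u hu huU
    refine le_antisymm (h2 u hu huU) ?_
    rw [heq b u hb hu (hUb huU)]
    exact hUb

/-- the partition of a valuation ring, for a subgroup `T` -/
theorem part_of_val' (p : ℕ) (hp : p.Prime) (hp2 : p ≠ 2) (F : Type) [Field F]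
    (T : Subgroup Fˣ) (hpT : pwG F p ≤ T) (hidx : T.index ≠ p)
    (O : ValuationSubring F) (hO : ∀ x : F, x ∈ O → x⁻¹ ∉ O → ∃ t ∈ T, (t : F) = 1 + x)
    (hne : O.unitGroup ⊔ T ≠ ⊤) :
    ∃ P : Set (Subgroup Fˣ), IsPart T P ∧
      ∀ x v : Fˣ, x ∉ T → (v : F) = 1 + x → ∀ K ∈ P, x ∈ K → v ∈ K := by
  obtain ⟨U, hU⟩ : ∃ U : Subgroup Fˣ, U = O.unitGroup ⊔ T := ⟨_, rfl⟩
  have hTU : T ≤ U := hU ▸ le_sup_right
  have hOU : O.unitGroup ≤ U := hU ▸ le_sup_left
  have hneg : (-1 : Fˣ) ∈ T := by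
    have hodd : Odd p := hp.odd_of_ne_two hp2
    exact hpT ⟨-1, hodd.neg_one_pow⟩
  rw [← hU] at hne
  have hzp : ∀ a g : Fˣ, g ∉ T → g ∈ Subgroup.zpowers a ⊔ T → a ∈ Subgroup.zpowers g ⊔ T := by
    intro a g hg h
    obtain ⟨x, hx, y, hy, hxy⟩ := Subgroup.mem_sup.1 h
    obtain ⟨n, rfl⟩ := Subgroup.mem_zpowers_iff.1 hx
    have h3 : a ^ n ∈ Subgroup.zpowers g ⊔ T := by
      have h4 : a ^ n = g * y⁻¹ := by rw [← hxy, mul_inv_cancel_right]
      rw [h4]
      exact mul_mem (Subgroup.mem_sup_left (Subgroup.mem_zpowers g))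
        (inv_mem (Subgroup.mem_sup_right hy))
    by_cases hd : (p : ℤ) ∣ n
    · obtain ⟨m, rfl⟩ := hd
      exfalso
      apply hg
      rw [← hxy]
      refine mul_mem (hpT ⟨a ^ m, ?_⟩) hy
      show (a ^ m) ^ p = _
      rw [← zpow_natCast, ← zpow_mul, mul_comm]
    · refine mem_of_pow hp (hpT.trans le_sup_right) (j := n.natAbs)
        (fun hd' => hd (Int.natCast_dvd.2 hd')) ?_
      rcases Int.natAbs_eq n with e | e
      · rw [e, zpow_natCast] at h3; exact h3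
      · rw [e, zpow_neg, zpow_natCast] at h3; exact inv_mem_iff.1 h3
  have hUa : ∀ a : Fˣ, a ∉ U → U ⊓ (Subgroup.zpowers a ⊔ T) = T := by
    intro a ha
    refine le_antisymm ?_ (le_inf hTU le_sup_right)
    rintro x ⟨hx1, hx2⟩
    by_contra hx
    have h3 := hzp a x hx hx2
    have h4 : Subgroup.zpowers x ⊔ T ≤ U :=
      sup_le ((Subgroup.zpowers_le).2 hx1) hTU
    exact ha (h4 h3)
  refine ⟨{K | K = U ∨ ∃ a : Fˣ, a ∉ U ∧ K = Subgroup.zpowers a ⊔ T},
    ⟨?_, ?_, ?_, ?_⟩, ?_⟩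
  · rintro K (rfl | ⟨a, -, rfl⟩)
    · exact hTU
    · exact le_sup_right
  · rintro K (rfl | ⟨a, ha, rfl⟩)
    · exact hne
    · intro e
      apply hidx
      have hap : a ∉ T := fun h => ha (hTU h)
      -- the quotient is cyclic of order `p`
      obtain ⟨A, _, φ, hφ, hk⟩ := exists_quot F T
      have hgen : Subgroup.zpowers (φ a) = ⊤ := by
        rw [eq_top_iff]
        intro x _
        obtain ⟨y, rfl⟩ := hφ x
        have hy : y ∈ Subgroup.zpowers a ⊔ T := by rw [e]; trivial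
        obtain ⟨z, hz, t, ht, hzt⟩ := Subgroup.mem_sup.1 hy
        obtain ⟨n, rfl⟩ := Subgroup.mem_zpowers_iff.1 hz
        refine Subgroup.mem_zpowers_iff.2 ⟨n, ?_⟩
        rw [← hk, MonoidHom.mem_ker] at ht
        rw [← hzt, map_mul, map_zpow, ht, mul_one]
      have h3 : orderOf (φ a) = p := by
        have := Fact.mk hp
        refine orderOf_eq_prime ?_ ?_
        · rw [← map_pow, ← MonoidHom.mem_ker, hk]
          exact hpT ⟨a, rfl⟩
        · intro h4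
          rw [← MonoidHom.mem_ker, hk] at h4
          exact hap h4
      have h6 : Nat.card (Subgroup.zpowers (φ a)) = p := by
        rw [Nat.card_zpowers, h3]
      rw [hgen, Subgroup.card_top] at h6
      rw [← hk, Subgroup.index_ker, MonoidHom.range_eq_top.2 hφ, Subgroup.card_top]
      exact h6
  · intro x
    by_cases hx : x ∈ U
    · exact ⟨U, Or.inl rfl, hx⟩
    · exact ⟨_, Or.inr ⟨x, hx, rfl⟩, Subgroup.mem_sup_left (Subgroup.mem_zpowers x)⟩
  · rintro K (rfl | ⟨a, ha, rfl⟩) K' (rfl | ⟨a', ha', rfl⟩) hne'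
    · exact absurd rfl hne'
    · exact hUa a' ha'
    · rw [inf_comm]; exact hUa a ha
    · refine le_antisymm ?_ (le_inf le_sup_right le_sup_right)
      rintro x ⟨hx1, hx2⟩
      by_contra hx
      apply hne'
      have h3 : ∀ a : Fˣ, x ∈ Subgroup.zpowers a ⊔ T →
          Subgroup.zpowers a ⊔ T = Subgroup.zpowers x ⊔ T := by
        intro a hxa
        refine le_antisymm (sup_le ((Subgroup.zpowers_le).2 (hzp a x hx hxa))
          le_sup_right) (sup_le ((Subgroup.zpowers_le).2 hxa) le_sup_right)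
      rw [h3 a hx1, h3 a' hx2]
  · intro x v hx hv K hK hxK
    have hTK : T ≤ K := by
      rcases hK with rfl | ⟨a, -, rfl⟩
      · exact hTU
      · exact le_sup_right
    have hx0 : (x : F) ≠ 0 := x.ne_zero
    by_cases h1 : (x : F) ∈ O
    · by_cases h2 : (x : F)⁻¹ ∈ O
      · -- a unit
        have hxu : x ∈ O.unitGroup := mem_unitGroup_of h1 (by
          rw [Units.val_inv_eq_inv_val]; exact h2)
        have hKU : K = U := by
          rcases hK with rfl | ⟨a, ha, rfl⟩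
          · rfl
          · exfalso
            apply hx
            rw [← hUa a ha]
            exact ⟨hOU hxu, hxK⟩
        rw [hKU]
        apply hOU
        have hvO : (v : F) ∈ O := by rw [hv]; exact O.add_mem _ _ O.one_mem h1
        refine mem_unitGroup_of hvO ?_
        by_contra hc
        rw [Units.val_inv_eq_inv_val] at hc
        have h3 : (-(v : F)) ∈ O := O.neg_mem _ hvO
        have h4 : (-(v : F))⁻¹ ∉ O := by
          rw [inv_neg]
          intro h5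
          apply hc
          have := O.neg_mem _ h5
          rwa [neg_neg] at this
        obtain ⟨t, ht, e⟩ := hO _ h3 h4
        apply hx
        have e1 : x = -1 * t := by
          apply Units.ext
          rw [Units.val_mul, Units.val_neg, Units.val_one, e, hv]
          ring
        rw [e1]
        exact mul_mem hneg ht
      · obtain ⟨t, ht, e⟩ := hO _ h1 h2
        have : v = t := Units.ext (by rw [hv, e])
        rw [this]
        exact hTK ht
    · have h2 : (x : F)⁻¹ ∈ O := (O.mem_or_inv_mem _).resolve_left h1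
      obtain ⟨t, ht, e⟩ := hO _ h2 (by rwa [inv_inv])
      have : v = x * t := by
        apply Units.ext
        rw [hv, Units.val_mul, e]
        field_simp
        ring
      rw [this]
      exact mul_mem hxK (hTK ht)

end Pool.Agent.E8helper26.EO
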