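import Mathlib
import Pool.Agent.E8helper26.EO.Part

set_option autoImplicit false

/-! Partitions of `F*/T` with bad elements in two blocks: the exceptional case. -/

namespace Pool.Agent.E8helper26.EO

open Pool.Agent.Y920.EP Pool.Agent.R675.TP
open Pool.Agent.Y920.ETC (PCD Compat)

section fld

variable {F : Type} [Field F] {A : Type} [CommGroup A] {φ : Fˣ →* A} {Nn : A → Subgroup A}

lemma exists_unit {O : ValuationSubring F} (a : O) (ha : a ∉ IsLocalRing.maximalIdeal O) :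
    ∃ u : Fˣ, (u : F) = a ∧ u ∈ O.unitGroup := by
  rw [O.valuation_lt_one_iff, not_lt] at ha
  have h1 : O.valuation (a : F) = 1 := le_antisymm (O.valuation_le_one a) ha
  have h0 : (a : F) ≠ 0 := by
    intro e
    rw [e, map_zero] at h1
    exact zero_ne_one h1
  exact ⟨Units.mk0 _ h0, rfl, h1⟩

lemma not_mem_of_unit {O : ValuationSubring F} {a : O} {u : Fˣ} (hu : u ∈ O.unitGroup)
    (e : (u : F) = a) : a ∉ IsLocalRing.maximalIdeal O := by
  rw [O.valuation_lt_one_iff, ← e, show O.valuation (u : F) = 1 from hu]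
  exact lt_irrefl _

/-- sums of units of the kernel -/
lemma add_ker (h : TSys φ Nn) (hT : Two φ Nn) {O : ValuationSubring F}
    (hU : ∀ u : Fˣ, u ∈ O.unitGroup ↔ u ∈ Un h hT) {s t u : Fˣ} (hs : φ s = 1)
    (hsO : s ∈ O.unitGroup) (ht : φ t = 1) (hu : u ∈ O.unitGroup)
    (e : (u : F) = s + t) : φ u = 1 := by
  have h1 : φ (u / s) = 1 := one_add_ker h hT (t := t / s)
    (by rw [map_div, hs, ht, div_one]) (by
      have : (s : F) ≠ 0 := s.ne_zero
      rw [Units.val_div_eq_div_val, Units.val_div_eq_div_val, e]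
      field_simp) ((hU _).1 (div_mem hu hsO))
  rwa [map_div, hs, div_one] at h1

/-- the residues of the units of the kernel form a subfield -/
lemma exists_subfield' (h : TSys φ Nn) (hT : Two φ Nn) {O : ValuationSubring F}
    (hU : ∀ u : Fˣ, u ∈ O.unitGroup ↔ u ∈ Un h hT) :
    ∃ K₀ : Subfield (IsLocalRing.ResidueField O), ∀ x, x ∈ K₀ ↔ (x = 0 ∨
      ∃ (a : O) (u : Fˣ), (u : F) = a ∧ u ∈ O.unitGroup ∧ φ u = 1 ∧
        IsLocalRing.residue O a = x) := by
  refine ⟨{ carrier := {x | x = 0 ∨ ∃ (a : O) (u : Fˣ), (u : F) = a ∧ u ∈ O.unitGroup ∧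
              φ u = 1 ∧ IsLocalRing.residue O a = x}
            mul_mem' := ?_
            one_mem' := Or.inr ⟨1, 1, by simp, one_mem _, map_one _, map_one _⟩
            add_mem' := ?_
            zero_mem' := Or.inl rfl
            neg_mem' := ?_
            inv_mem' := ?_ }, fun x => Iff.rfl⟩
  · rintro x y (rfl | ⟨a, u, e, hu, hu1, rfl⟩) (rfl | ⟨b, v, e', hv, hv1, rfl⟩)
    · left; simp
    · left; simp
    · left; simp
    · exact Or.inr ⟨a * b, u * v, by rw [Units.val_mul, e, e']; rfl, mul_mem hu hv,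
        by rw [map_mul, hu1, hv1, one_mul], map_mul _ _ _⟩
  · rintro x y (rfl | ⟨a, u, e, hu, hu1, rfl⟩) (rfl | ⟨b, v, e', hv, hv1, rfl⟩)
    · left; simp
    · rw [zero_add]; exact Or.inr ⟨b, v, e', hv, hv1, rfl⟩
    · rw [add_zero]; exact Or.inr ⟨a, u, e, hu, hu1, rfl⟩
    · by_cases hm : a + b ∈ IsLocalRing.maximalIdeal O
      · left
        rw [← map_add]
        exact (IsLocalRing.residue_eq_zero_iff _).2 hm
      · obtain ⟨w, hw, hwO⟩ := exists_unit _ hm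
        refine Or.inr ⟨a + b, w, hw, hwO, ?_, map_add _ _ _⟩
        refine add_ker h hT hU hu1 hu hv1 hwO ?_
        rw [hw, e, e']
        rfl
  · rintro x (rfl | ⟨a, u, e, hu, hu1, rfl⟩)
    · left; simp
    · refine Or.inr ⟨-a, -u, by rw [Units.val_neg, e]; rfl, ?_, ?_, map_neg _ _⟩
      · rw [ValuationSubring.mem_unitGroup_iff, Units.val_neg, Valuation.map_neg]
        exact hu
      · rw [phi_neg h.neg, hu1]
  · rintro x (rfl | ⟨a, u, e, hu, hu1, rfl⟩)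
    · left; simp
    · have h1 : ((u⁻¹ : Fˣ) : F) ∈ O :=
        (O.valuation_le_one_iff _).1 (le_of_eq (inv_mem hu : u⁻¹ ∈ O.unitGroup))
      refine Or.inr ⟨⟨_, h1⟩, u⁻¹, rfl, inv_mem hu, by rw [map_inv, hu1, inv_one], ?_⟩
      refine eq_inv_of_mul_eq_one_left ?_
      rw [← map_mul, ← map_one (IsLocalRing.residue O)]
      congr 1
      apply Subtype.ext
      push_cast
      rw [← e]
      simp

/-- bad elements in two blocks: the residue characteristic is `p` -/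
theorem exists_exc (h : TSys φ Nn) {y₀ z₀ : Fˣ} (hy₀ : Bd φ y₀) (hz₀ : Bd φ z₀)
    (hyz : φ z₀ ∉ Nn (φ y₀)) {p : ℕ} (hp : p.Prime) (hpF : (p : F) ≠ 0)
    (hexp : ∀ a : A, a ^ p = 1) (hodd : ∀ a : A, a * a = 1 → a = 1) :
    ∃ O : ValuationSubring F, (∀ x : F, x ∈ O → x⁻¹ ∉ O → ∃ t ∈ φ.ker, (t : F) = 1 + x) ∧
      (p : F)⁻¹ ∉ O ∧
      (∀ s t u : Fˣ, s ∈ φ.ker → s ∈ O.unitGroup → t ∈ φ.ker → t ∈ O.unitGroup →
        u ∈ O.unitGroup → (u : F) = s + t → u ∈ φ.ker) ∧ ¬ O.unitGroup ≤ φ.ker := by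
  have hT : Two φ Nn := h.two_of hy₀ hz₀ hyz
  obtain ⟨O, hO⟩ := exists_O h hT hy₀ hodd
  have hU := unit_iff h hT hy₀ hO
  have hy₀U : y₀ ∈ O.unitGroup := (hU y₀).2 (mem_Un_of_bd h hT hy₀)
  refine ⟨O, ?_, ?_, fun s t u hs hsO ht _ hu e =>
    add_ker h hT hU hs hsO ht hu e, fun hle => hy₀.1 (hle hy₀U)⟩
  · intro x hx hx'
    obtain ⟨t, ht, e⟩ := hO.one x hx hx'
    exact ⟨t, (mem_Tn.1 ht).1, e⟩
  intro hpO
  -- `p ≠ 0` in the residue field
  have hpk : (p : IsLocalRing.ResidueField O) ≠ 0 := by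
    intro h0
    have h1 : IsLocalRing.residue O ((p : O)) = 0 := by rw [map_natCast]; exact h0
    rw [IsLocalRing.residue_eq_zero_iff, O.valuation_lt_one_iff] at h1
    push_cast at h1
    exact Pool.Agent.Y232.EP.of_lt_one hpF h1 hpO
  obtain ⟨K₀, hK₀⟩ := exists_subfield' h hT hU
  have hpK : ∀ x : IsLocalRing.ResidueField O, x ^ p ∈ K₀ := by
    intro x
    rw [hK₀]
    obtain ⟨a, rfl⟩ := IsLocalRing.residue_surjective x
    by_cases ha : a ∈ IsLocalRing.maximalIdeal O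
    · left
      rw [(IsLocalRing.residue_eq_zero_iff a).2 ha, zero_pow hp.ne_zero]
    · obtain ⟨u, hu, huO⟩ := exists_unit a ha
      refine Or.inr ⟨a ^ p, u ^ p, ?_, pow_mem huO p, by rw [map_pow, hexp], map_pow _ _ _⟩
      rw [Units.val_pow_eq_pow_val, hu]
      rfl
  let ρ := O.unitGroupToResidueFieldUnits
  have hker : ∀ g : O.unitGroup, ρ g = 1 → φ g = 1 := by
    intro g hg
    have h1 : g ∈ ρ.ker := hg
    rw [show ρ.ker = _ from O.ker_unitGroupToResidueFieldUnits, Subgroup.mem_comap,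
      Subgroup.coe_subtype, ValuationSubring.mem_principalUnitGroup_iff] at h1
    exact phi_of_principal hO h1
  have hsur : Function.Surjective ρ := O.surjective_unitGroupToResidueFieldUnits
  have hy₀O : (y₀ : F) ∈ O := (O.valuation_le_one_iff _).1 (le_of_eq hy₀U)
  -- the subfield is finite
  have hnot : IsLocalRing.residue O ⟨y₀, hy₀O⟩ ∉ K₀ := by
    rw [hK₀]
    rintro (h0 | ⟨a, u, e, hu, hu1, h0⟩)
    · rw [IsLocalRing.residue_eq_zero_iff] at h0
      exact not_mem_of_unit hy₀U rfl h0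
    · have h2 : (⟨y₀, hy₀O⟩ : O) - a ∈ IsLocalRing.maximalIdeal O := by
        rw [← IsLocalRing.residue_eq_zero_iff, map_sub, h0, sub_self]
      rw [O.valuation_lt_one_iff] at h2
      push_cast at h2
      have h3 : φ (y₀ / u) = 1 := by
        refine phi_of_principal hO ?_
        have e1 : ((y₀ / u : Fˣ) : F) - 1 = ((y₀ : F) - a) / u := by
          have : (u : F) ≠ 0 := u.ne_zero
          rw [Units.val_div_eq_div_val, ← e]
          field_simp
        rw [e1, map_div₀, show O.valuation (u : F) = 1 from hu, div_one]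
        exact h2
      rw [map_div, hu1, div_one] at h3
      exact hy₀.1 h3
  have hKfin : Finite K₀ := fin_of_pow K₀ p hp.pos hpk _ hnot (fun c _ => hpK _)
  have : Fintype K₀ := Fintype.ofFinite _
  obtain ⟨m, hm⟩ : ∃ m, m = Fintype.card K₀ - 1 := ⟨_, rfl⟩
  have hm0 : 0 < m := by
    have : 1 < Fintype.card K₀ := Fintype.one_lt_card
    omega
  have hpow : ∀ r : (IsLocalRing.ResidueField O)ˣ, r ^ (p * m) = 1 := by
    intro r
    have h1 : (r : IsLocalRing.ResidueField O) ^ p ∈ K₀ := hpK _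
    have h2 : (⟨(r : IsLocalRing.ResidueField O) ^ p, h1⟩ : K₀) ^ m = 1 := by
      rw [hm]
      refine FiniteField.pow_card_sub_one_eq_one _ ?_
      intro e
      have := congrArg Subtype.val e
      exact pow_ne_zero p r.ne_zero this
    have h3 := congrArg Subtype.val h2
    apply Units.ext
    rw [pow_mul]
    push_cast
    simpa using h3
  obtain ⟨n, hn⟩ : ∃ n, n = p * m := ⟨_, rfl⟩
  rw [← hn] at hpow
  have hpp := hp.pos
  have : NeZero n := ⟨by rw [hn]; positivity⟩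
  obtain ⟨g, hg⟩ := IsCyclic.exists_generator (α := rootsOfUnity n (IsLocalRing.ResidueField O))
  obtain ⟨w, hw⟩ := hsur (g : (IsLocalRing.ResidueField O)ˣ)
  have hcyc : ∀ u : Fˣ, Bd φ u → ∃ a : ℤ, φ u = φ (w : Fˣ) ^ a := by
    intro u hu
    have huG : u ∈ O.unitGroup := (hU u).2 (mem_Un_of_bd h hT hu)
    obtain ⟨a, ha⟩ := Subgroup.mem_zpowers_iff.1
      (hg ⟨ρ ⟨u, huG⟩, (mem_rootsOfUnity _ _).2 (hpow _)⟩)
    have h1 : (g : (IsLocalRing.ResidueField O)ˣ) ^ a = ρ ⟨u, huG⟩ := by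
      have := congrArg Subtype.val ha
      rwa [Subgroup.coe_zpow] at this
    have h2 : ρ (⟨u, huG⟩ / w ^ a) = 1 := by
      rw [map_div, map_zpow, hw, h1, div_self']
    have h3 := hker _ h2
    rw [Subgroup.coe_div, Subgroup.coe_zpow, map_div, map_zpow, div_eq_one] at h3
    exact ⟨a, h3⟩
  obtain ⟨a, ha⟩ := hcyc y₀ hy₀
  obtain ⟨b, hb⟩ := hcyc z₀ hz₀
  have hw1 : φ (w : Fˣ) ≠ 1 := by
    intro e
    rw [e, one_zpow] at ha
    exact hy₀.1 ha
  have h1 : φ y₀ ∈ Nn (φ (w : Fˣ)) := by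
    rw [ha]; exact zpow_mem (h.blk.self _) a
  have h2 : φ z₀ ∈ Nn (φ (w : Fˣ)) := by
    rw [hb]; exact zpow_mem (h.blk.self _) b
  rw [← h.blk.eq_of hw1 hy₀.1 h1] at h2
  exact hyz h2

end fld

/-- from partitions of `F*/T` to valuation rings, no finiteness assumption -/
theorem compat_or_exc (p : ℕ) (hp : p.Prime) (hp2 : p ≠ 2) (F : Type) [Field F]
    (hpF : (p : F) ≠ 0) (hζ : ∃ ζ : F, IsPrimitiveRoot ζ p) (T : Subgroup Fˣ) (hpT : pwG F p ≤ T)
    {P : Set (Subgroup Fˣ)} (hP : IsPart T P)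
    (hsum : ∀ x v : Fˣ, x ∉ T → (v : F) = 1 + x → ∀ K ∈ P, x ∈ K → v ∈ K) :
    ∃ O : ValuationSubring F, (∀ x : F, x ∈ O → x⁻¹ ∉ O → ∃ t ∈ T, (t : F) = 1 + x) ∧
      ((∃ K ∈ P, O.unitGroup ≤ K) ∨
        ((p : F)⁻¹ ∉ O ∧ (∀ s t u : Fˣ, s ∈ T → s ∈ O.unitGroup → t ∈ T → t ∈ O.unitGroup →
          u ∈ O.unitGroup → (u : F) = s + t → u ∈ T) ∧ ¬ O.unitGroup ≤ T ∧
          T ≠ pwG F p ∧ ∃ K ∈ P, T.relIndex K = 0)) := by
  by_cases hfin : T = pwG F p ∨ ∀ K ∈ P, T.relIndex K ≠ 0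
  · obtain ⟨K, hK, O, hO⟩ := compat_of_part p hp hp2 F hζ T hpT hP hfin hsum
    exact ⟨O, hO.one, Or.inl ⟨K, hK, unit_le hO⟩⟩
  push Not at hfin
  obtain ⟨hTne, hKinf⟩ := hfin
  obtain ⟨A, _, φ, hφ, hk⟩ := exists_quot F T
  subst hk
  have hexp : ∀ a : A, a ^ p = 1 := by
    intro a
    obtain ⟨u, rfl⟩ := hφ a
    rw [← map_pow]
    exact hpT ⟨u, rfl⟩
  have hneg : φ (-1) = 1 := by
    have hodd : Odd p := hp.odd_of_ne_two hp2
    exact hpT ⟨-1, hodd.neg_one_pow⟩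
  have hT := tsys_of_part hφ hP hneg (fun x v hx hv K hK hxK => hsum x v hx hv K hK hxK)
  by_cases hno : ∀ y z : Fˣ, Bd φ y → Bd φ z → φ z ∈ NnP hφ hP (φ y)
  · have hne : ∃ a : Fˣ, φ a ≠ 1 := by
      by_contra hc
      push Not at hc
      obtain ⟨K, hK, -⟩ := hP.cover 1
      apply hP.ne_top K hK
      rw [eq_top_iff]
      intro x _
      exact hP.le K hK (MonoidHom.mem_ker.2 (hc x))
    obtain ⟨b, O, hb, hO, -⟩ := val_of_tsys' p hp hp2 F hexp hT hno hne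
    obtain ⟨K, hK, hbK⟩ := hP.cover b
    refine ⟨O, hO.one, Or.inl ⟨K, hK, fun u hu => ?_⟩⟩
    have h1 := unit_le hO hu
    rw [Subgroup.mem_comap, mem_NnP hφ hP hb] at h1
    obtain ⟨K', hK', h2, h3⟩ := h1
    rw [hP.eq_of hK hK' (x := b) (by rw [MonoidHom.mem_ker]; exact hb) hbK h2]
    exact h3
  · push Not at hno
    obtain ⟨y, z, hy, hz, hyz⟩ := hno
    obtain ⟨O, h1, h2, h3, h4⟩ := exists_exc hT hy hz hyz hp hpF hexp (hodd_of hp hp2 hexp)
    exact ⟨O, h1, Or.inr ⟨h2, h3, h4, hTne, hKinf⟩⟩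

end Pool.Agent.E8helper26.EO
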